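import Mathlib

/-!
# MP_1cf91b_nt, Q1: `n (2n+1) C(2n,n)` divides `∑_{k<n} (10k+3) C(2k,k)² C(3k,k) 8^(n-1-k)` for `n ≥ 2`

Write `n = m + 1`, `A m j = C(m+2j, 2j) C(2j,j)` and `U = ∑_{j ≤ m} A m j 4^(m-j)`.

* WZ identity: `2 S = 3 (m+1) C(2m+2, m+1) U`.
* Telescoping: `(m+1)(m+2) U + 2(2m+3) ∑_{j ≤ m} j A m j 4^(m-j) = (m+1)² A m (m+1)` and
  `3 (m+1) C(3m+2, 2m+2) = (2m+3) C(3m+3, 2m+3)`, so `2m+3` divides `3 U`.
* `U` is even for `m ≥ 1`.
-/

set_option autoImplicit false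

open Finset

namespace Pool.Agent.Results.MP_1cf91b_nt.Divisibility

/-- the sum of the problem -/
def S (n : ℕ) : ℕ :=
  ∑ k ∈ range n, (10 * k + 3) * (2 * k).choose k ^ 2 * (3 * k).choose k * 8 ^ (n - 1 - k)

/-- `A m j = C(m+2j, 2j) C(2j,j)` -/
def A (m j : ℕ) : ℕ := (m + 2 * j).choose (2 * j) * Nat.centralBinom j

/-- `u m j = A m j / 4^j` -/
noncomputable def u (m j : ℕ) : ℚ := (A m j : ℚ) / 4 ^ j

lemma A_closed (m j : ℕ) : (A m j : ℚ) = ((m + 2 * j).factorial : ℚ) /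
    ((m.factorial : ℚ) * (j.factorial : ℚ) ^ 2) := by
  unfold A
  rw [Nat.centralBinom_eq_two_mul_choose]
  push_cast
  rw [Nat.cast_choose ℚ (by omega : 2 * j ≤ m + 2 * j), Nat.cast_choose ℚ (by omega : j ≤ 2 * j)]
  have e1 : m + 2 * j - 2 * j = m := by omega
  have e2 : 2 * j - j = j := by omega
  rw [e1, e2]
  have h1 : ((2 * j).factorial : ℚ) ≠ 0 := by positivity
  have h2 : (m.factorial : ℚ) ≠ 0 := by positivity
  have h3 : (j.factorial : ℚ) ≠ 0 := by positivity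
  field_simp

lemma fact1 (m : ℕ) : ((m + 1).factorial : ℚ) = (m + 1) * (m.factorial : ℚ) := by
  rw [Nat.factorial_succ]; push_cast; ring

lemma u_j (m j : ℕ) : u m (j + 1) * (4 * (j + 1) ^ 2) = (m + 2 * j + 1) * (m + 2 * j + 2) * u m j := by
  unfold u
  rw [A_closed, A_closed]
  have e : m + 2 * (j + 1) = m + 2 * j + 1 + 1 := by ring
  rw [e, fact1, fact1, fact1, pow_succ]
  have h2 : (m.factorial : ℚ) ≠ 0 := by positivity
  have h3 : (j.factorial : ℚ) ≠ 0 := by positivity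
  have h4 : (j : ℚ) + 1 ≠ 0 := by positivity
  push_cast
  field_simp
  ring

lemma u_m (m j : ℕ) : u (m + 1) j * (m + 1) = (m + 1 + 2 * j) * u m j := by
  unfold u
  rw [A_closed, A_closed]
  have e : m + 1 + 2 * j = m + 2 * j + 1 := by ring
  rw [e, fact1, fact1]
  have h2 : (m.factorial : ℚ) ≠ 0 := by positivity
  have h3 : (j.factorial : ℚ) ≠ 0 := by positivity
  have h4 : (m : ℚ) + 1 ≠ 0 := by positivity
  push_cast
  field_simp
  ring

lemma cb_succ (j : ℕ) : ((j : ℚ) + 1) * (Nat.centralBinom (j + 1) : ℚ)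
    = 2 * (2 * j + 1) * (Nat.centralBinom j : ℚ) := by
  have h := Nat.succ_mul_centralBinom_succ j
  exact_mod_cast h

/-- `K m = 3(m+1)C(2m+2,m+1)/2^(m+1)` -/
noncomputable def K (m : ℕ) : ℚ := 3 * (m + 1) * (Nat.centralBinom (m + 1) : ℚ) / 2 ^ (m + 1)

lemma K_succ (m : ℕ) : K (m + 1) * (m + 1) = (2 * m + 3) * K m := by
  unfold K
  have h := cb_succ (m + 1)
  rw [pow_succ]
  push_cast at h ⊢
  generalize (Nat.centralBinom (m + 1 + 1) : ℚ) = X at *
  generalize (Nat.centralBinom (m + 1) : ℚ) = Y at *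
  rw [div_mul_eq_mul_div, mul_div_assoc', div_eq_div_iff (by positivity) (by positivity)]
  linear_combination (3 * (m + 1) * (2 : ℚ) ^ (m + 1)) * h

lemma wz_step (m j : ℕ) : K (m + 1) * u (m + 1) j - K m * u m j =
    4 * ((j + 1 : ℕ) : ℚ) ^ 2 / (m + 1) ^ 2 * (K m * u m (j + 1)) -
      4 * (j : ℚ) ^ 2 / (m + 1) ^ 2 * (K m * u m j) := by
  have h1 := u_j m j
  have h2 := u_m m j
  have h3 := K_succ m
  have q1 : (m : ℚ) + 1 ≠ 0 := by positivity
  have q3 : (j : ℚ) + 1 ≠ 0 := by positivity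
  have e1 : u m (j + 1) = (m + 2 * j + 1) * (m + 2 * j + 2) * u m j / (4 * (j + 1) ^ 2) := by
    rw [eq_div_iff (by positivity)]; exact h1
  have e2 : u (m + 1) j = (m + 1 + 2 * j) * u m j / (m + 1) := by
    rw [eq_div_iff q1]; exact h2
  have e3 : K (m + 1) = (2 * m + 3) * K m / (m + 1) := by
    rw [eq_div_iff q1]; exact h3
  rw [e1, e2, e3]
  push_cast
  field_simp
  ring

lemma wz_sum (m J : ℕ) : ∑ j ∈ range J, (K (m + 1) * u (m + 1) j - K m * u m j) =
    4 * (J : ℚ) ^ 2 / (m + 1) ^ 2 * (K m * u m J) := by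
  induction J with
  | zero => simp
  | succ J ih =>
    rw [sum_range_succ, ih, wz_step]
    ring

/-- the summand without the linear factor -/
noncomputable def tt (k : ℕ) : ℚ := ((2 * k).choose k : ℚ) ^ 2 * ((3 * k).choose k : ℚ) / 8 ^ k

lemma diag (m : ℕ) : K m * u m (m + 1) = (m + 1) * tt (m + 1) := by
  unfold K u tt
  rw [A_closed, Nat.centralBinom_eq_two_mul_choose,
    Nat.cast_choose ℚ (by omega : m + 1 ≤ 3 * (m + 1))]
  have e1 : 3 * (m + 1) - (m + 1) = 2 * (m + 1) := by omega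
  have e2 : m + 2 * (m + 1) = 3 * m + 2 := by ring
  have e3 : 3 * (m + 1) = 3 * m + 2 + 1 := by ring
  have e4 : (8 : ℚ) ^ (m + 1) = 2 ^ (m + 1) * 4 ^ (m + 1) := by rw [← mul_pow]; norm_num
  have hc : ((2 * (m + 1)).choose (m + 1) : ℚ) = ((2 * (m + 1)).factorial : ℚ) /
      (((m + 1).factorial : ℚ) * ((m + 1).factorial : ℚ)) := by
    rw [Nat.cast_choose ℚ (by omega : m + 1 ≤ 2 * (m + 1))]
    have e2 : 2 * (m + 1) - (m + 1) = m + 1 := by omega
    rw [e2]
  rw [e1, e2, e4, e3, fact1 (3 * m + 2), hc, fact1 m]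
  have h1 : ((2 * (m + 1)).factorial : ℚ) ≠ 0 := by positivity
  have h2 : (m.factorial : ℚ) ≠ 0 := by positivity
  have h4 : (m : ℚ) + 1 ≠ 0 := by positivity
  push_cast
  field_simp
  ring

theorem wz (m : ℕ) : ∑ k ∈ range (m + 1), (10 * (k : ℚ) + 3) * tt k =
    K m * ∑ j ∈ range (m + 1), u m j := by
  induction m with
  | zero => simp [K, u, A, tt, Nat.centralBinom]
  | succ m ih =>
    rw [sum_range_succ, ih]
    have h := wz_sum m (m + 1)
    rw [sum_sub_distrib, ← mul_sum, ← mul_sum] at h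
    rw [sum_range_succ _ (m + 1)]
    have hd := diag m
    have h2 := u_m m (m + 1)
    have h3 := K_succ m
    have q1 : (m : ℚ) + 1 ≠ 0 := by positivity
    push_cast at h2 h
    have e2 : u (m + 1) (m + 1) = (m + 1 + 2 * (m + 1)) * u m (m + 1) / (m + 1) := by
      rw [eq_div_iff q1]; exact h2
    have e3 : K (m + 1) = (2 * m + 3) * K m / (m + 1) := by
      rw [eq_div_iff q1]; exact h3
    have e6 : K (m + 1) * u (m + 1) (m + 1) = 3 * (2 * m + 3) * tt (m + 1) := by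
      calc K (m + 1) * u (m + 1) (m + 1)
          = 3 * (2 * m + 3) / (m + 1) * (K m * u m (m + 1)) := by
            rw [e2, e3]; field_simp; ring
        _ = 3 * (2 * m + 3) * tt (m + 1) := by rw [hd]; field_simp
    have e7 : 4 * ((m : ℚ) + 1) ^ 2 / (m + 1) ^ 2 * (K m * u m (m + 1)) =
        4 * (m + 1) * tt (m + 1) := by
      rw [hd]
      field_simp
    rw [e7] at h
    push_cast
    linear_combination (-1) * h - e6

/-- `U m = ∑_{j ≤ m} A m j 4^(m-j)` -/
def U (m : ℕ) : ℕ := ∑ j ∈ range (m + 1), A m j * 4 ^ (m - j)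

/-- `V m = ∑_{j ≤ m} j A m j 4^(m-j)` -/
def V (m : ℕ) : ℕ := ∑ j ∈ range (m + 1), j * (A m j * 4 ^ (m - j))

lemma four_pow (m j : ℕ) (hj : j ≤ m) : (A m j : ℚ) * 4 ^ (m - j) = 4 ^ m * u m j := by
  have e : (4 : ℚ) ^ m = 4 ^ (m - j) * 4 ^ j := by
    rw [← pow_add]; congr 1; omega
  unfold u
  rw [e]
  field_simp

lemma U_cast (m : ℕ) : (U m : ℚ) = 4 ^ m * ∑ j ∈ range (m + 1), u m j := by
  unfold U
  push_cast
  rw [mul_sum]
  apply sum_congr rfl
  intro j hj
  exact four_pow m j (by have := mem_range.mp hj; omega)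

lemma V_cast (m : ℕ) : (V m : ℚ) = 4 ^ m * ∑ j ∈ range (m + 1), j * u m j := by
  unfold V
  push_cast
  rw [mul_sum]
  apply sum_congr rfl
  intro j hj
  rw [four_pow m j (by have := mem_range.mp hj; omega)]
  ring

lemma S_eq (m : ℕ) : 2 * S (m + 1) = 3 * (m + 1) * Nat.centralBinom (m + 1) * U m := by
  have h := wz m
  have h1 : (S (m + 1) : ℚ) = 8 ^ m * ∑ k ∈ range (m + 1), (10 * (k : ℚ) + 3) * tt k := by
    unfold S
    push_cast
    rw [mul_sum]
    apply sum_congr rfl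
    intro k hk
    have hk' : k ≤ m := by have := mem_range.mp hk; omega
    have e : (8 : ℚ) ^ m = 8 ^ (m - k) * 8 ^ k := by rw [← pow_add]; congr 1; omega
    rw [e]
    unfold tt
    field_simp
  have h2 : (2 : ℚ) * (S (m + 1) : ℚ) = 3 * (m + 1) * (Nat.centralBinom (m + 1) : ℚ) * (U m : ℚ) := by
    rw [h1, h, U_cast]
    unfold K
    have e : (8 : ℚ) ^ m = 2 ^ m * 4 ^ m := by rw [← mul_pow]; norm_num
    rw [e, pow_succ]
    field_simp
  exact_mod_cast h2

lemma telescope (m J : ℕ) : ∑ j ∈ range J, u m j * ((m + 1) * (m + 2) + 2 * (2 * m + 3) * j)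
    = 4 * J ^ 2 * u m J := by
  induction J with
  | zero => simp
  | succ J ih =>
    rw [sum_range_succ, ih]
    have h := u_j m J
    push_cast
    linear_combination -h

lemma U_eq (m : ℕ) : (m + 1) * (m + 2) * U m + 2 * (2 * m + 3) * V m = (m + 1) ^ 2 * A m (m + 1) := by
  have h := telescope m (m + 1)
  have hs : ∑ j ∈ range (m + 1), u m j * (((m : ℚ) + 1) * (m + 2) + 2 * (2 * m + 3) * j) =
      (m + 1) * (m + 2) * ∑ j ∈ range (m + 1), u m j +
        2 * (2 * m + 3) * ∑ j ∈ range (m + 1), j * u m j := by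
    rw [mul_sum, mul_sum, ← sum_add_distrib]
    apply sum_congr rfl
    intro j _
    ring
  rw [hs] at h
  have hq : ((m : ℚ) + 1) * (m + 2) * (U m : ℚ) + 2 * (2 * m + 3) * (V m : ℚ) =
      (m + 1) ^ 2 * (A m (m + 1) : ℚ) := by
    rw [U_cast, V_cast]
    have e : (A m (m + 1) : ℚ) = 4 ^ (m + 1) * u m (m + 1) := by
      unfold u
      field_simp
    rw [e, pow_succ]
    push_cast at h
    linear_combination (4 : ℚ) ^ m * h
  exact_mod_cast hq

lemma three_choose (m : ℕ) : 3 * (m + 1) * (3 * m + 2).choose (2 * m + 2) =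
    (2 * m + 3) * (3 * m + 3).choose (2 * m + 3) := by
  have h1 := Nat.choose_mul_succ_eq (3 * m + 2) (2 * m + 2)
  have h2 := Nat.choose_succ_right_eq (3 * m + 3) (2 * m + 2)
  have e1 : 3 * m + 2 + 1 - (2 * m + 2) = m + 1 := by omega
  have e2 : 3 * m + 3 - (2 * m + 2) = m + 1 := by omega
  rw [e1] at h1
  rw [e2] at h2
  have h1' : (3 * m + 2).choose (2 * m + 2) * (3 * m + 3) = (3 * m + 3).choose (2 * m + 2) * (m + 1) := h1
  have h2' : (3 * m + 3).choose (2 * m + 3) * (2 * m + 3) = (3 * m + 3).choose (2 * m + 2) * (m + 1) := h2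
  calc 3 * (m + 1) * (3 * m + 2).choose (2 * m + 2)
      = (3 * m + 2).choose (2 * m + 2) * (3 * m + 3) := by ring
    _ = (3 * m + 3).choose (2 * m + 3) * (2 * m + 3) := by rw [h1', h2']
    _ = _ := by ring

lemma dvd_three_U (m : ℕ) : (2 * m + 3) ∣ 3 * U m := by
  have h := U_eq m
  have h3 : 3 * ((m + 1) ^ 2 * A m (m + 1)) = (2 * m + 3) *
      ((m + 1) * (3 * m + 3).choose (2 * m + 3) * Nat.centralBinom (m + 1)) := by
    unfold A
    have e : m + 2 * (m + 1) = 3 * m + 2 := by ring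
    have e2 : 2 * (m + 1) = 2 * m + 2 := by ring
    rw [e, e2]
    have := three_choose m
    calc 3 * ((m + 1) ^ 2 * ((3 * m + 2).choose (2 * m + 2) * Nat.centralBinom (m + 1)))
        = (m + 1) * (3 * (m + 1) * (3 * m + 2).choose (2 * m + 2)) * Nat.centralBinom (m + 1) := by ring
      _ = _ := by rw [this]; ring
  have h4 : (2 * m + 3) ∣ 3 * ((m + 1) * (m + 2) * U m) + (2 * m + 3) * (3 * (2 * V m)) := by
    have : 3 * ((m + 1) * (m + 2) * U m) + (2 * m + 3) * (3 * (2 * V m)) =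
        3 * ((m + 1) * (m + 2) * U m + 2 * (2 * m + 3) * V m) := by ring
    rw [this, h, h3]
    exact Dvd.intro _ rfl
  have h5 : (2 * m + 3) ∣ 3 * ((m + 1) * (m + 2) * U m) :=
    (Nat.dvd_add_left (Dvd.intro _ rfl)).mp h4
  have c1 : Nat.Coprime (2 * m + 3) (m + 1) := by
    have e : 2 * m + 3 = 1 + 2 * (m + 1) := by ring
    rw [e]
    simp
  have c2 : Nat.Coprime (2 * m + 3) (m + 2) := by
    rw [Nat.coprime_comm]
    have e : 2 * m + 3 = (m + 1) + 1 * (m + 2) := by ring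
    rw [e, Nat.coprime_add_mul_right_right]
    have e2 : m + 2 = m + 1 + 1 := rfl
    rw [e2]
    simp
  have h6 : 3 * ((m + 1) * (m + 2) * U m) = (m + 1) * (m + 2) * (3 * U m) := by ring
  rw [h6] at h5
  exact (Nat.Coprime.mul_right c1 c2).dvd_of_dvd_mul_left h5

lemma even_U (m : ℕ) (hm : 1 ≤ m) : 2 ∣ U m := by
  unfold U
  apply dvd_sum
  intro j hj
  have hj' : j ≤ m := by have := mem_range.mp hj; omega
  rcases Nat.lt_or_ge j m with h | h
  · apply Dvd.dvd.mul_left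
    apply dvd_pow (by norm_num)
    omega
  · have : j = m := le_antisymm hj' h
    subst this
    apply Dvd.dvd.mul_right
    unfold A
    apply Dvd.dvd.mul_left
    exact Nat.two_dvd_centralBinom_of_one_le hm

/-- **Full answer to Q1**: for every `n ≥ 2` the number `n (2n+1) C(2n,n)` divides
`∑_{k<n} (10k+3) C(2k,k)² C(3k,k) 8^(n-1-k)`; equivalently, the rational number `a_n` of the problem
is an integer. -/
theorem result (n : ℕ) (hn : 2 ≤ n) :
    (n * (2 * n + 1) * (2 * n).choose n ∣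
      ∑ k ∈ range n, (10 * k + 3) * (2 * k).choose k ^ 2 * (3 * k).choose k * 8 ^ (n - 1 - k)) ∧
    ∃ z : ℤ, (z : ℚ) = 1 / ((n : ℚ) * (2 * n + 1) * ((2 * n).choose n : ℚ)) *
      ∑ k ∈ range n, (10 * (k : ℚ) + 3) * ((2 * k).choose k : ℚ) ^ 2 * ((3 * k).choose k : ℚ) *
        8 ^ (n - 1 - k) := by
  have main : n * (2 * n + 1) * (2 * n).choose n ∣ S n := by
    obtain ⟨m, rfl⟩ : ∃ m, n = m + 1 := ⟨n - 1, by omega⟩
    have hm : 1 ≤ m := by omega
    have h2 : 2 ∣ 3 * U m := (even_U m hm).mul_left 3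
    have hcop : Nat.Coprime 2 (2 * m + 3) := by
      rw [Nat.coprime_two_left]
      exact ⟨m + 1, by ring⟩
    obtain ⟨W, hW⟩ := hcop.mul_dvd_of_dvd_of_dvd h2 (dvd_three_U m)
    have h3 := S_eq m
    refine ⟨W, ?_⟩
    rw [← Nat.centralBinom_eq_two_mul_choose]
    have h4 : 2 * S (m + 1) = 2 * ((m + 1) * (2 * (m + 1) + 1) * Nat.centralBinom (m + 1) * W) := by
      rw [h3]
      calc 3 * (m + 1) * Nat.centralBinom (m + 1) * U m
          = (m + 1) * Nat.centralBinom (m + 1) * (3 * U m) := by ring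
        _ = (m + 1) * Nat.centralBinom (m + 1) * (2 * (2 * m + 3) * W) := by rw [hW]
        _ = _ := by ring
    exact Nat.eq_of_mul_eq_mul_left (by norm_num) h4
  refine ⟨main, ?_⟩
  obtain ⟨W, hW⟩ := main
  refine ⟨W, ?_⟩
  have hq : (S n : ℚ) = ((n * (2 * n + 1) * (2 * n).choose n * W : ℕ) : ℚ) := by rw [hW]
  have hS : (S n : ℚ) = ∑ k ∈ range n, (10 * (k : ℚ) + 3) * ((2 * k).choose k : ℚ) ^ 2 *
      ((3 * k).choose k : ℚ) * 8 ^ (n - 1 - k) := by
    unfold S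
    push_cast
    rfl
  rw [← hS, hq]
  have hn0 : (n : ℚ) ≠ 0 := by
    have : n ≠ 0 := by omega
    exact_mod_cast this
  have hc : ((2 * n).choose n : ℚ) ≠ 0 := by
    have : (2 * n).choose n ≠ 0 := (Nat.choose_pos (by omega)).ne'
    exact_mod_cast this
  have h2 : (2 * (n : ℚ) + 1) ≠ 0 := by positivity
  push_cast
  field_simp

end Pool.Agent.Results.MP_1cf91b_nt.Divisibility
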